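import Pool.Agent.Helper99.SZ.Stmts4
import Pool.Agent.Helper97.HB.IDC

set_option autoImplicit false

/-! Module QID of the crew table `sz_mods` (adapted from the modules IDC of the tables `hb_mods`
and `bk_mods`). -/

namespace Pool.Helper99.SZ

open NumberField UniqueFactorizationMonoid

theorem qid_card {K : Type} [Field K] [NumberField K] (h3 : Module.finrank ℚ K ≤ 3) (m : ℕ)
    (hm : m ≠ 0) (s : Finset (Ideal (𝓞 K))) (hs : ∀ I ∈ s, Ideal.absNorm I = m) :
    s.card ≤ m.divisors.card ^ 3 := by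
  classical
  let S : Finset (Σ _ : ℕ, Ideal (𝓞 K)) :=
    m.primeFactors.sigma (fun p => IsDedekindDomain.primesOverFinset (Ideal.span {(p : ℤ)}) (𝓞 K))
  let T := Finset.pi S (fun x => Finset.range (m.factorization x.1 + 1))
  have hI0 : ∀ I ∈ s, I ≠ ⊥ := by
    intro I hI h
    have := hs I hI
    rw [h, Ideal.absNorm_bot] at this
    exact hm this.symm
  have hmax : ∀ p : ℕ, p.Prime → (Ideal.span {(p : ℤ)}).IsMaximal ∧
      Ideal.span {(p : ℤ)} ≠ ⊥ := by
    intro p hp
    have h0 : Ideal.span {(p : ℤ)} ≠ ⊥ := by simpa using hp.ne_zero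
    refine ⟨?_, h0⟩
    have : (Ideal.span {(p : ℤ)}).IsPrime := by
      rw [Ideal.span_singleton_prime (by exact_mod_cast hp.ne_zero)]
      exact Nat.prime_iff_prime_int.mp hp
    exact this.isMaximal h0
  have hcardT : T.card ≤ m.divisors.card ^ 3 := by
    rw [Finset.card_pi, Nat.card_divisors hm, ← Finset.prod_pow]
    simp only [S]
    rw [Finset.prod_sigma]
    refine Finset.prod_le_prod' fun p hp => ?_
    simp only [Finset.card_range]
    rw [Finset.prod_const]
    refine Nat.pow_le_pow_right (Nat.succ_pos _) ?_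
    have hpp := Nat.prime_of_mem_primeFactors hp
    obtain ⟨hM, hne⟩ := hmax p hpp
    exact (Ideal.card_primesOverFinset_le_finrank (R := ℤ) (𝓞 K) ℚ K hne).trans h3
  refine le_trans ?_ hcardT
  refine Finset.card_le_card_of_injOn
    (fun I => fun x _ => (normalizedFactors I).count x.2) ?_ ?_
  · intro I hI
    have hI := Finset.mem_coe.mp hI
    rw [Finset.mem_coe, Finset.mem_pi]
    rintro ⟨p, P⟩ hx
    simp only [S, Finset.mem_sigma] at hx
    obtain ⟨hp, hP⟩ := hx
    have hpp := Nat.prime_of_mem_primeFactors hp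
    obtain ⟨hM, hne⟩ := hmax p hpp
    rw [IsDedekindDomain.mem_primesOverFinset_iff hne] at hP
    rw [Finset.mem_range, Nat.lt_succ_iff, ← hpp.pow_dvd_iff_le_factorization hm]
    have h1 : P ^ (normalizedFactors I).count P ∣ I := by
      conv_rhs => rw [← Ideal.prod_normalizedFactors_eq_self (hI0 I hI)]
      rw [← Multiset.prod_replicate]
      exact Multiset.prod_dvd_prod_of_le (Multiset.le_count_iff_replicate_le.mp le_rfl)
    have h2 : Ideal.absNorm P ^ (normalizedFactors I).count P ∣ m := by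
      rw [← hs I hI, ← map_pow]
      exact map_dvd _ h1
    have h4 : p ∣ Ideal.absNorm P := by
      have hPp : P.IsPrime := hP.1
      have hPl : P.LiesOver (Ideal.span {(p : ℤ)}) := hP.2
      rw [Ideal.absNorm_eq_pow_inertiaDeg' P hpp]
      refine dvd_pow_self p fun h => ?_
      have h5 := Ideal.absNorm_eq_pow_inertiaDeg' P hpp
      rw [h, pow_zero, Ideal.absNorm_eq_one_iff] at h5
      exact hPp.ne_top h5
    exact (pow_dvd_pow_of_dvd h4 _).trans h2
  · intro I hI J hJ hIJ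
    have hI := Finset.mem_coe.mp hI
    have hJ := Finset.mem_coe.mp hJ
    have key : ∀ L ∈ s, ∀ P ∈ normalizedFactors L, ∃ p, (⟨p, P⟩ : Σ _ : ℕ, Ideal (𝓞 K)) ∈ S := by
      intro L hL P hP
      have hPpr := prime_of_normalized_factor P hP
      have hP0 : P ≠ ⊥ := hPpr.ne_zero
      have hPp : P.IsPrime := Ideal.isPrime_of_prime hPpr
      obtain ⟨p, hp, hmem, hdvd⟩ := Pool.Agent.Helper97.HB.idc_under P hPp hP0
      refine ⟨p, ?_⟩
      simp only [S, Finset.mem_sigma]
      refine ⟨?_, hmem⟩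
      rw [Nat.mem_primeFactors]
      refine ⟨hp, hdvd.trans ?_, hm⟩
      rw [← hs L hL]
      exact map_dvd _ (dvd_of_mem_normalizedFactors hP)
    have hc : ∀ P, (normalizedFactors I).count P = (normalizedFactors J).count P := by
      intro P
      by_cases h : P ∈ normalizedFactors I ∨ P ∈ normalizedFactors J
      · obtain ⟨p, hp⟩ : ∃ p, (⟨p, P⟩ : Σ _ : ℕ, Ideal (𝓞 K)) ∈ S := by
          rcases h with h | h
          · exact key I hI P h
          · exact key J hJ P h
        exact congrFun (congrFun hIJ ⟨p, P⟩) hp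
      · push Not at h
        rw [Multiset.count_eq_zero.mpr h.1, Multiset.count_eq_zero.mpr h.2]
    rw [← Ideal.prod_normalizedFactors_eq_self (hI0 I hI), ← Ideal.prod_normalizedFactors_eq_self (hI0 J hJ),
      Multiset.ext.mpr hc]

/-- Counting ideals. -/
theorem st_QID (h2 : BK.ST_TAU) : ST_QID := by
  intro K _ _ h3 t ht
  classical
  have hfin : ∀ n : ℕ, {J : Ideal (𝓞 K) | Ideal.absNorm J = n}.Finite := fun n =>
    Ideal.finite_setOfPred_absNorm_eq n
  have hsub : BK.ID K t ⊆ ↑((Finset.Icc 1 ⌊t⌋₊).biUnion fun n => (hfin n).toFinset) := by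
    rintro J ⟨hJ, hJt⟩
    rw [Finset.mem_coe, Finset.mem_biUnion]
    refine ⟨Ideal.absNorm J, ?_, ?_⟩
    · rw [Finset.mem_Icc]
      refine ⟨?_, Nat.le_floor hJt⟩
      have : Ideal.absNorm J ≠ 0 := fun h => hJ (Ideal.absNorm_eq_zero_iff.1 h)
      omega
    · rw [Set.Finite.mem_toFinset]
      rfl
  have hle : (BK.ID K t).ncard ≤ ∑ n ∈ Finset.Icc 1 ⌊t⌋₊, n.divisors.card ^ 3 := by
    calc (BK.ID K t).ncard ≤ (↑((Finset.Icc 1 ⌊t⌋₊).biUnion fun n => (hfin n).toFinset) :
          Set (Ideal (𝓞 K))).ncard := Set.ncard_le_ncard hsub (Finset.finite_toSet _)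
      _ = ((Finset.Icc 1 ⌊t⌋₊).biUnion fun n => (hfin n).toFinset).card := Set.ncard_coe_finset _
      _ ≤ ∑ n ∈ Finset.Icc 1 ⌊t⌋₊, ((hfin n).toFinset).card := Finset.card_biUnion_le
      _ ≤ ∑ n ∈ Finset.Icc 1 ⌊t⌋₊, n.divisors.card ^ 3 := by
        refine Finset.sum_le_sum fun n hn => ?_
        exact qid_card (by omega) n (by have := (Finset.mem_Icc.1 hn).1; omega) _
          (fun I hI => by simpa using hI)
  calc ((BK.ID K t).ncard : ℝ) ≤ ((∑ n ∈ Finset.Icc 1 ⌊t⌋₊, n.divisors.card ^ 3 : ℕ) : ℝ) := by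
        exact_mod_cast hle
    _ = ∑ n ∈ Finset.Icc 1 ⌊t⌋₊, (n.divisors.card : ℝ) ^ 3 := by push_cast; rfl
    _ ≤ t * (1 + Real.log t) ^ 8 := h2 t ht

end Pool.Helper99.SZ
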